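import Mathlib

set_option autoImplicit false

namespace Pool.Agent.Results.MP_6c5f5a_co.Counter

open Finset

/-- A tree of maximum degree four with a connected partition of every type. -/
def CPET {V : Type} [Fintype V] [DecidableEq V] (T : SimpleGraph V) [DecidableRel T.Adj] : Prop :=
  T.IsTree ∧ T.maxDegree = 4 ∧ ∀ l : Nat.Partition (Fintype.card V),
    ∃ P : Finpartition (univ : Finset V),
      (∀ B ∈ P.parts, (T.induce (B : Set V)).Connected) ∧ P.parts.val.map Finset.card = l.parts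

abbrev V := Fin 31

def p (v : V) : V := if v = 16 ∨ v = 28 ∨ v = 30 then 0 else ⟨v - 1, by omega⟩

def leg (v : V) : Fin 4 := if v < 16 then 0 else if v < 28 then 1 else if v < 30 then 2 else 3

def dep (v : V) : ℕ := if v < 16 then v else if v < 28 then v - 15 else if v < 30 then v - 27 else 1

def cap : Fin 4 → ℕ := ![15, 12, 2, 1]

def T : SimpleGraph V where
  Adj u v := (u ≠ 0 ∧ p u = v) ∨ (v ≠ 0 ∧ p v = u)
  symm := ⟨fun _ _ => Or.symm⟩
  loopless := ⟨by decide⟩

instance : DecidableRel T.Adj := fun u v =>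
  inferInstanceAs (Decidable ((u ≠ 0 ∧ p u = v) ∨ (v ≠ 0 ∧ p v = u)))

lemma pf : ∀ v : V, v ≠ 0 → dep (p v) + 1 = dep v ∧ (p v = 0 ∨ leg (p v) = leg v) := by decide

lemma conn (B : Finset V) (r : V) (hr : r ∈ B) (h : ∀ v ∈ B, v ≠ r → v ≠ 0 ∧ p v ∈ B) :
    (T.induce (B : Set V)).Connected := by
  refine (SimpleGraph.connected_iff_exists_forall_reachable _).2 ⟨⟨r, hr⟩, fun ⟨v, hv⟩ => ?_⟩
  induction' e : dep v using Nat.strong_induction_on with n ih generalizing v
  by_cases hv' : v = r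
  · subst hv'; rfl
  · obtain ⟨h1, h2⟩ := h v hv hv'
    exact (ih _ (by have := pf v h1; omega) _ h2 rfl).trans
      (SimpleGraph.Adj.reachable (Or.inr ⟨h1, rfl⟩))

def CP (S : Finset V) (M : Multiset ℕ) : Prop := ∃ P : Finpartition S,
  (∀ B ∈ P.parts, (T.induce (B : Set V)).Connected) ∧ P.parts.val.map Finset.card = M

def S (x : Fin 4 → ℕ) : Finset V := univ.filter fun v => dep v ≤ x (leg v)

lemma base (x : Fin 4 → ℕ) : CP (S x) {(S x).card} := by
  have h0 : (0 : V) ∈ S x := by simp [S, dep]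
  refine ⟨.indiscrete (ne_empty_of_mem h0), fun B hB => ?_, rfl⟩
  rw [mem_singleton.1 hB]
  refine conn _ 0 h0 fun v hv h => ⟨h, ?_⟩
  obtain ⟨h1, h2 | h2⟩ := pf v h
  · rwa [h2]
  · simp only [S, mem_filter, mem_univ, true_and, h2] at hv ⊢
    omega

lemma peel (x y : Fin 4 → ℕ) (j : Fin 4) (s : ℕ) (hs : 0 < s) (h1 : y j + s = x j)
    (h2 : ∀ i, i ≠ j → y i = x i) (hx : x j ≤ cap j) {M : Multiset ℕ} (h : CP (S y) M) :
    CP (S x) (s ::ₘ M) := by
  obtain ⟨P, hP, rfl⟩ := h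
  let B : Finset V := univ.filter fun v => leg v = j ∧ y j < dep v ∧ dep v ≤ x j
  have hB : ∀ v, v ∈ B ↔ leg v = j ∧ y j < dep v ∧ dep v ≤ x j := by simp [B]
  have hc : B.card = s := by
    have : ∀ j, ∀ t ∈ range 16, ∀ u ∈ range 16, t ≤ cap j →
      (univ.filter fun v => leg v = j ∧ u < dep v ∧ dep v ≤ t).card = t - u := by decide +kernel
    have c : cap j ≤ 15 := (by decide : ∀ j, cap j ≤ 15) j
    rw [this j _ (mem_range.2 (by omega)) _ (mem_range.2 (by omega)) hx]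
    omega
  obtain ⟨r, hr, hm⟩ := B.exists_min_image dep (card_pos.1 (hc ▸ hs))
  have d : Disjoint (S y) B := disjoint_left.2 fun v h1 h2 => by
    obtain ⟨h4, h3, -⟩ := (hB v).1 h2
    have := (mem_filter.1 h1).2
    rw [h4] at this
    omega
  have n : B ∉ P.parts := fun h => disjoint_left.1 d (P.le h hr) hr
  refine ⟨P.extend (c := S x) (ne_empty_of_mem hr) d ?_, fun C hC => ?_, ?_⟩
  · ext v
    simp only [S, sup_eq_union, mem_union, mem_filter, mem_univ, true_and, hB]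
    by_cases e : leg v = j
    · simp only [e, true_and]; omega
    · simp [e, h2 _ e]
  · rcases mem_insert.1 hC with rfl | hC
    · refine conn _ r hr fun v hv e => ?_
      have i : ∀ u v : V, leg u = leg v → dep u = dep v → u = v := by decide +kernel
      have := hm v hv
      rw [hB] at hr hv ⊢
      have e' := mt (i v r (hv.1.trans hr.1.symm)) e
      have h0 : v ≠ 0 := by rintro rfl; simp [dep] at hv
      obtain ⟨h3, h4 | h4⟩ := pf v h0
      · rw [h4] at h3
        simp only [dep] at h3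
        exact absurd h3 (by change ¬ 0 + 1 = dep v; omega)
      · exact ⟨h0, h4.trans hv.1, by omega, by omega⟩
    · exact hP C hC
  · change (insert B P.parts).val.map _ = _
    rw [insert_val_of_notMem n, Multiset.map_cons, hc]

def fit : List ℕ → ℕ → ℕ → ℕ → ℕ → Bool
  | [], _, _, _, _ => true
  | s :: l, a, b, c, d => (s ≤ d && fit l a b c (d - s)) || (s ≤ c && fit l a b (c - s) d) ||
      (s ≤ b && fit l a (b - s) c d) || (s ≤ a && fit l (a - s) b c d)

def cen : List ℕ → ℕ → ℕ → ℕ → ℕ → Bool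
  | [], _, _, _, _ => false
  | s :: l, a, b, c, d => fit l a b c d || (s ≤ d && cen l a b c (d - s)) ||
      (s ≤ c && cen l a b (c - s) d) || (s ≤ b && cen l a (b - s) c d) || (s ≤ a && cen l (a - s) b c d)

lemma peel4 {a b c d s : ℕ} {M : Multiset ℕ} (hs : 0 < s) (h : a ≤ 15 ∧ b ≤ 12 ∧ c ≤ 2 ∧ d ≤ 1) :
    (s ≤ d → CP (S ![a, b, c, d - s]) M → CP (S ![a, b, c, d]) (s ::ₘ M)) ∧
    (s ≤ c → CP (S ![a, b, c - s, d]) M → CP (S ![a, b, c, d]) (s ::ₘ M)) ∧
    (s ≤ b → CP (S ![a, b - s, c, d]) M → CP (S ![a, b, c, d]) (s ::ₘ M)) ∧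
    (s ≤ a → CP (S ![a - s, b, c, d]) M → CP (S ![a, b, c, d]) (s ::ₘ M)) := by
  refine ⟨fun e => peel _ _ 3 s hs ?_ ?_ h.2.2.2, fun e => peel _ _ 2 s hs ?_ ?_ h.2.2.1,
    fun e => peel _ _ 1 s hs ?_ ?_ h.2.1, fun e => peel _ _ 0 s hs ?_ ?_ h.1⟩ <;>
  first | exact Nat.sub_add_cancel e | (intro i; fin_cases i <;> simp)

lemma fit_ok (l : List ℕ) : ∀ a b c d m, fit l a b c d → (∀ s ∈ l, 0 < s) →
    a ≤ 15 ∧ b ≤ 12 ∧ c ≤ 2 ∧ d ≤ 1 → m + l.sum = a + b + c + d + 1 →
    CP (S ![a, b, c, d]) (m ::ₘ l) := by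
  induction' l with s l ih
  · intro a b c d m _ _ h e
    have : ∀ a ∈ range 16, ∀ b ∈ range 13, ∀ c ∈ range 3, ∀ d ∈ range 2,
      (S ![a, b, c, d]).card = a + b + c + d + 1 := by decide +kernel
    have := this a (mem_range.2 (by omega)) b (mem_range.2 (by omega)) c (mem_range.2 (by omega))
      d (mem_range.2 (by omega))
    rw [show m = _ from e, ← this]
    exact base _
  · intro a b c d m f hl h e
    rw [List.forall_mem_cons] at hl
    rw [List.sum_cons] at e
    obtain ⟨p1, p2, p3, p4⟩ := peel4 (M := m ::ₘ l) hl.1 h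
    rw [← Multiset.cons_coe, Multiset.cons_swap]
    simp only [fit, Bool.or_eq_true, Bool.and_eq_true, decide_eq_true_eq] at f
    rcases f with ((f | f) | f) | f
    exacts [p1 f.1 (ih _ _ _ _ _ f.2 hl.2 (by omega) (by omega)),
      p2 f.1 (ih _ _ _ _ _ f.2 hl.2 (by omega) (by omega)),
      p3 f.1 (ih _ _ _ _ _ f.2 hl.2 (by omega) (by omega)),
      p4 f.1 (ih _ _ _ _ _ f.2 hl.2 (by omega) (by omega))]

lemma cen_ok (l : List ℕ) : ∀ a b c d, cen l a b c d → (∀ s ∈ l, 0 < s) →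
    a ≤ 15 ∧ b ≤ 12 ∧ c ≤ 2 ∧ d ≤ 1 → l.sum = a + b + c + d + 1 → CP (S ![a, b, c, d]) l := by
  induction' l with s l ih
  · simp [cen]
  · intro a b c d f hl h e
    rw [List.forall_mem_cons] at hl
    rw [List.sum_cons] at e
    obtain ⟨p1, p2, p3, p4⟩ := peel4 (M := l) hl.1 h
    rw [← Multiset.cons_coe]
    simp only [cen, Bool.or_eq_true, Bool.and_eq_true, decide_eq_true_eq] at f
    rcases f with (((f | f) | f) | f) | f
    exacts [fit_ok l _ _ _ _ _ f hl.2 h e, p1 f.1 (ih _ _ _ _ f.2 hl.2 (by omega) (by omega)),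
      p2 f.1 (ih _ _ _ _ f.2 hl.2 (by omega) (by omega)),
      p3 f.1 (ih _ _ _ _ f.2 hl.2 (by omega) (by omega)),
      p4 f.1 (ih _ _ _ _ f.2 hl.2 (by omega) (by omega))]

def all : ℕ → ℕ → ℕ → List ℕ → Bool
  | 0, _, _, _ => false
  | f + 1, n, m, l => if n = 0 then cen l 15 12 2 1 else
      n < m || (all f (n - m) m (m :: l) && all f n (m + 1) l)

lemma all_ok (f : ℕ) : ∀ n m l (M : Multiset ℕ), all f n m l → (∀ x ∈ M, m ≤ x) → M.sum = n →
    0 < m → ∃ k : List ℕ, cen k 15 12 2 1 ∧ (k : Multiset ℕ) = M + l := by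
  induction' f with f ih
  · simp [all]
  intro n m l M h hM e hm
  rw [all] at h
  by_cases h0 : M = 0
  · subst h0
    exact ⟨l, by simpa [← e] using h, by simp⟩
  obtain ⟨x, hx⟩ := Multiset.exists_mem_of_ne_zero h0
  have := Multiset.le_sum_of_mem hx
  have := hM x hx
  rw [if_neg (by omega)] at h
  simp only [Bool.or_eq_true, Bool.and_eq_true, decide_eq_true_eq] at h
  obtain ⟨h1, h2⟩ := h.resolve_left (by omega)
  by_cases hm' : m ∈ M
  · obtain ⟨N, rfl⟩ := Multiset.exists_cons_of_mem hm'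
    obtain ⟨k, k1, k2⟩ := ih _ _ _ N h1 (fun y hy => hM y (Multiset.mem_cons_of_mem hy))
      (by rw [Multiset.sum_cons] at e; omega) hm
    exact ⟨k, k1, by rw [k2, ← Multiset.cons_coe, Multiset.add_cons, Multiset.cons_add]⟩
  · exact ih _ _ _ M h2 (fun y hy => (hM y hy).lt_of_ne fun h => hm' (h ▸ hy)) e (by omega)

theorem result : ∃ (T : SimpleGraph (Fin 31)) (_ : DecidableRel T.Adj), CPET T ∧
    ¬ ∃ v a b, T.degree v = 4 ∧ a ≠ b ∧ T.Adj v a ∧ T.Adj v b ∧ T.degree a = 1 ∧ T.degree b = 1 := by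
  refine ⟨T, inferInstance, ⟨?_, by decide +kernel, fun l => ?_⟩, ?_⟩
  · rw [SimpleGraph.isTree_iff_connected_and_card, Nat.card_eq_fintype_card,
      ← SimpleGraph.edgeFinset_card]
    refine ⟨?_, by simp only [Nat.card_eq_fintype_card]; decide +kernel⟩
    have := conn univ 0 (mem_univ _) fun v _ h => ⟨h, mem_univ _⟩
    rw [coe_univ] at this
    exact (SimpleGraph.induceUnivIso T).connected_iff.1 this
  · obtain ⟨k, k1, k2⟩ := all_ok 64 31 1 [] l.parts (by decide +kernel) (fun x => l.parts_pos)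
      l.parts_sum one_pos
    have e : (k : Multiset ℕ) = l.parts := by simpa using k2
    have := cen_ok k _ _ _ _ k1 (fun s hs => l.parts_pos (e ▸ hs)) (by omega)
      (by rw [← Multiset.sum_coe, e, l.parts_sum]; rfl)
    rwa [e, show S ![15, 12, 2, 1] = univ by decide +kernel] at this
  · rintro ⟨v, a, b, h1, h2, h3, h4, h5, h6⟩
    obtain rfl := (by decide +kernel : ∀ v, T.degree v = 4 → v = 0) v h1
    have : ∀ a, T.Adj 0 a → T.degree a = 1 → a = 30 := by decide +kernel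
    exact h2 ((this a h3 h5).trans (this b h4 h6).symm)

end Pool.Agent.Results.MP_6c5f5a_co.Counter
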